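import Pool.Agent.W544.K3.Defs2
import Pool.Agent.W481.K3.RK

/-!
# K3-SIMP: so(B) is simple
-/

open Module Finset

namespace Pool.Agent.W340.K3.Simp

open Pool.Agent.W544.K3 Pool.Agent.W481.K3

noncomputable section

variable {U : Type} [AddCommGroup U] [Module ℝ U]

/-- stable under brackets with all skew operators -/
def Stab (B : U →ₗ[ℝ] U →ₗ[ℝ] ℝ) (n : Submodule ℝ (End ℝ U)) : Prop :=
  (∀ y ∈ n, Skew B y) ∧ ∀ z, Skew B z → ∀ y ∈ n, z * y - y * z ∈ n

variable {B : U →ₗ[ℝ] U →ₗ[ℝ] ℝ} {n : Submodule ℝ (End ℝ U)} {e f : U}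

theorem wz (u : U) : wedge B u 0 = 0 := by ext w; simp [wedge_apply]

theorem wnl (u v : U) : wedge B (-u) v = - wedge B u v := by
  ext w; simp [wedge_apply]; abel

theorem claimA (hs : ∀ u v, B u v = B v u) (S : Stab B n) (H : Hyp B e f) {y : End ℝ U}
    (hy : y ∈ n) : wedge B e (zc B e f (y f)) ∈ n := by
  have ys := S.1 y hy
  have h1 := S.2 _ (wedge_skew hs f e) y hy
  set z1 := zc B e f (y f) with hz1
  set z2 := zc B e f (y e) with hz2
  have a1 : y f = B e (y f) • f + z1 := by
    have h2 := dec B e f (y f)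
    have h3 : B f (y f) = 0 := by
      have := ys f f
      rw [hs (y f) f] at this; linarith
    rw [h3, zero_smul, zero_add] at h2
    exact h2
  have a2 : y e = B f (y e) • e + z2 := by
    have h2 := dec B e f (y e)
    have h3 : B e (y e) = 0 := by
      have := ys e e
      rw [hs (y e) e] at this; linarith
    rw [h3, zero_smul, add_zero] at h2
    exact h2
  have a3 : B f (y e) = - B e (y f) := by
    have := ys e f
    rw [hs (y e) f] at this; linarith
  have c0 := comm_wedge hs ys f e
  have c1 : wedge B f e * y - y * wedge B f e = wedge B e z1 - wedge B f z2 := by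
    have : wedge B f e * y - y * wedge B f e = -(wedge B (y f) e + wedge B f (y e)) := by
      rw [← c0]; abel
    rw [this, a1, a2, a3, wedge_add_left, wedge_add_right, wedge_smul_left, wedge_smul_right,
      neg_smul, wedge_swap z1 e]
    abel
  rw [c1] at h1
  have h2 := S.2 _ (wedge_skew hs f e) _ h1
  have d1 := comm_wedge hs (wedge_skew hs f e) e z1
  have d2 := comm_wedge hs (wedge_skew hs f e) f z2
  rw [xe hs H, xz (zc_e hs H _) (zc_f hs H _), wz, add_zero] at d1
  rw [xf hs H, xz (zc_e hs H _) (zc_f hs H _), wz, add_zero, wnl] at d2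
  have c2 : wedge B f e * (wedge B e z1 - wedge B f z2) - (wedge B e z1 - wedge B f z2) *
      wedge B f e = wedge B e z1 + wedge B f z2 := by
    have : wedge B f e * (wedge B e z1 - wedge B f z2) - (wedge B e z1 - wedge B f z2) *
      wedge B f e = (wedge B f e * wedge B e z1 - wedge B e z1 * wedge B f e) -
      (wedge B f e * wedge B f z2 - wedge B f z2 * wedge B f e) := by
      rw [mul_sub, sub_mul]; abel
    rw [this, d1, d2]; abel
  rw [c2] at h2
  have h3 := n.smul_mem (2⁻¹ : ℝ) (n.add_mem h1 h2)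
  have h4 : (2⁻¹ : ℝ) • (wedge B e z1 - wedge B f z2 + (wedge B e z1 + wedge B f z2)) =
      wedge B e z1 := by
    have : wedge B e z1 - wedge B f z2 + (wedge B e z1 + wedge B f z2) = (2 : ℝ) • wedge B e z1 := by
      rw [two_smul]; abel
    rw [this, smul_smul, inv_mul_cancel₀ (by norm_num : (2 : ℝ) ≠ 0), one_smul]
  rwa [h4] at h3

theorem claimB (hs : ∀ u v, B u v = B v u) (S : Stab B n) (H : Hyp B e f) {z : U}
    (h1 : B e z = 0) (h2 : B f z = 0) (h3 : B z z ≠ 0) (h4 : wedge B e z ∈ n) :
    wedge B f e ∈ n := by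
  have h5 := S.2 _ (wedge_skew hs f z) _ h4
  rw [comm_wedge hs (wedge_skew hs f z)] at h5
  have c1 : wedge B f z e = z := by
    rw [wedge_apply, hs f e, H.2.2, hs z e, h1]; simp
  have c2 : wedge B f z z = -(B z z) • f := by
    rw [wedge_apply, h2]; simp
  rw [c1, c2, wedge_self, zero_add, wedge_smul_right, wedge_swap e f] at h5
  have h6 := n.smul_mem (B z z)⁻¹ h5
  simpa [smul_smul, h3] using h6

theorem all_wedge (hs : ∀ u v, B u v = B v u) (S : Stab B n) (H : Hyp B e f)
    (hx : wedge B f e ∈ n) (u v : U) : wedge B u v ∈ n := by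
  have hx' : wedge B e f ∈ n := by rw [wedge_swap]; exact n.neg_mem hx
  have A1 : ∀ z, B e z = 0 → B f z = 0 → wedge B f z ∈ n := by
    intro z h1 h2
    have h3 := S.2 _ (wedge_skew hs f z) _ hx
    have d2 := comm_wedge hs (wedge_skew hs f e) f z
    rw [xf hs H, xz h1 h2, wz, add_zero, wnl] at d2
    have : wedge B f z * wedge B f e - wedge B f e * wedge B f z = wedge B f z := by
      have := congrArg Neg.neg d2
      simpa using this
    rwa [this] at h3
  have A2 : ∀ z, B e z = 0 → B f z = 0 → wedge B e z ∈ n := by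
    intro z h1 h2
    have h3 := S.2 _ (wedge_skew hs e z) _ hx
    have d2 := comm_wedge hs (wedge_skew hs f e) e z
    rw [xe hs H, xz h1 h2, wz, add_zero] at d2
    have h4 := n.neg_mem h3
    rw [neg_sub, d2] at h4
    exact h4
  have A3 : ∀ z z', B e z = 0 → B f z = 0 → B e z' = 0 → B f z' = 0 → wedge B z z' ∈ n := by
    intro z z' h1 h2 h3 h4
    have c1 := S.2 _ (wedge_skew hs e z) _ (A1 z' h3 h4)
    rw [comm_wedge hs (wedge_skew hs e z)] at c1
    have c2 : wedge B e z f = z := by
      rw [wedge_apply, H.2.2, hs z f, h2]; simp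
    have c3 : wedge B e z z' = -(B z z') • e := by
      rw [wedge_apply, h3]; simp
    rw [c2, c3, wedge_smul_right] at c1
    have c4 := n.add_mem c1 (n.smul_mem (B z z') hx)
    simpa using c4
  have A4 : ∀ u, wedge B e u ∈ n := by
    intro u
    rw [dec B e f u, wedge_add_right, wedge_add_right, wedge_smul_right, wedge_smul_right,
      wedge_self]
    refine n.add_mem (n.add_mem (n.smul_mem _ n.zero_mem) (n.smul_mem _ hx')) 
      (A2 _ (zc_e hs H u) (zc_f hs H u))
  have A5 : ∀ u, wedge B f u ∈ n := by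
    intro u
    rw [dec B e f u, wedge_add_right, wedge_add_right, wedge_smul_right, wedge_smul_right,
      wedge_self]
    refine n.add_mem (n.add_mem (n.smul_mem _ hx) (n.smul_mem _ n.zero_mem)) 
      (A1 _ (zc_e hs H u) (zc_f hs H u))
  have A6 : ∀ z, B e z = 0 → B f z = 0 → ∀ u, wedge B z u ∈ n := by
    intro z h1 h2 u
    rw [dec B e f u, wedge_add_right, wedge_add_right, wedge_smul_right, wedge_smul_right]
    refine n.add_mem (n.add_mem (n.smul_mem _ ?_) (n.smul_mem _ ?_)) 
      (A3 _ _ h1 h2 (zc_e hs H u) (zc_f hs H u))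
    · rw [wedge_swap]; exact n.neg_mem (A4 z)
    · rw [wedge_swap]; exact n.neg_mem (A5 z)
  rw [dec B e f u, wedge_add_left, wedge_add_left, wedge_smul_left, wedge_smul_left]
  exact n.add_mem (n.add_mem (n.smul_mem _ (A4 v)) (n.smul_mem _ (A5 v)))
    (A6 _ (zc_e hs H u) (zc_f hs H u) v)

theorem all_skew [FiniteDimensional ℝ U] (hs : ∀ u v, B u v = B v u)
    (nd : LinearMap.Nondegenerate B) (W : ∀ u v, wedge B u v ∈ n) (y : End ℝ U)
    (hy : Skew B y) : y ∈ n := by
  let b := Module.finBasis ℝ U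
  let b' := LinearMap.BilinForm.dualBasis B nd b
  have hb : ∀ i j, B (b' i) (b j) = if j = i then 1 else 0 := fun i j =>
    LinearMap.BilinForm.apply_dualBasis_left nd b i j
  have e1 : ∀ w : U, ∑ i, B (b' i) w • b i = w := by
    intro w
    conv_rhs => rw [← b.sum_repr w]
    refine Finset.sum_congr rfl fun i _ => ?_
    congr 1
    conv_lhs => rw [← b.sum_repr w]
    rw [map_sum]
    simp [hb]
  have e2 : ∀ w : U, ∑ i, B (b i) w • b' i = w := by
    intro w
    conv_rhs => rw [← b'.sum_repr w]
    refine Finset.sum_congr rfl fun i _ => ?_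
    congr 1
    rw [hs]
    exact (LinearMap.BilinForm.dualBasis_repr_apply nd b w i).symm
  have e3 : (2 : ℝ) • y = ∑ i, wedge B (b' i) (y (b i)) := by
    ext w
    rw [LinearMap.sum_apply]
    simp only [wedge_apply, Finset.sum_sub_distrib, LinearMap.smul_apply]
    have s1 : ∑ i, B (b' i) w • y (b i) = y w := by
      conv_rhs => rw [← e1 w]
      simp
    have s2 : ∑ i, B (y (b i)) w • b' i = - y w := by
      have : ∀ i, B (y (b i)) w = - B (b i) (y w) := fun i => by
        have := hy (b i) w; linarith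
      simp only [this, neg_smul, Finset.sum_neg_distrib]
      rw [e2 (y w)]
    rw [s1, s2, sub_neg_eq_add, two_smul]
  have e4 : (2 : ℝ) • y ∈ n := by
    rw [e3]; exact n.sum_mem fun i _ => W _ _
  have := n.smul_mem (2⁻¹ : ℝ) e4
  rwa [smul_smul, inv_mul_cancel₀ (by norm_num : (2 : ℝ) ≠ 0), one_smul] at this

/-- a nonzero vector satisfying few linear conditions -/
theorem exists_ker [FiniteDimensional ℝ U] (k : ℕ) (φ : Fin k → U →ₗ[ℝ] ℝ)
    (h : k < finrank ℝ U) : ∃ v : U, v ≠ 0 ∧ ∀ i, φ i v = 0 := by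
  have h1 : ¬ Function.Injective (LinearMap.pi φ) := by
    intro hi
    have := LinearMap.finrank_le_finrank_of_injective hi
    rw [Module.finrank_fin_fun] at this
    omega
  rw [← LinearMap.ker_eq_bot, Submodule.eq_bot_iff] at h1
  push Not at h1
  obtain ⟨v, hv, hv0⟩ := h1
  refine ⟨v, hv0, fun i => ?_⟩
  have := congrFun (LinearMap.mem_ker.1 hv) i
  simpa using this

theorem exists_hyp [FiniteDimensional ℝ U] (h : Sig2 B) (hd : 3 ≤ finrank ℝ U) :
    ∃ e f : U, Hyp B e f := by
  obtain ⟨hs, p, q, hp, hq, hpq, hneg⟩ := h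
  obtain ⟨v, hv0, hv⟩ := exists_ker 2 ![B p, B q] (by omega)
  have v1 : B p v = 0 := by simpa using hv 0
  have v2 : B q v = 0 := by simpa using hv 1
  have v3 : B v v < 0 := hneg v hv0 (by rw [hs]; exact v1) (by rw [hs]; exact v2)
  have v4 : B v p = 0 := by rw [hs]; exact v1
  obtain ⟨s, hs0, hs1⟩ : ∃ s : ℝ, 0 < s ∧ s ^ 2 * B p p = 1 := by
    refine ⟨(√(B p p))⁻¹, by positivity, ?_⟩
    rw [inv_pow, Real.sq_sqrt hp.le]; field_simp
  obtain ⟨t, ht0, ht1⟩ : ∃ t : ℝ, 0 < t ∧ t ^ 2 * B v v = -1 := by
    have h' : 0 < - B v v := by linarith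
    refine ⟨(√(- B v v))⁻¹, by positivity, ?_⟩
    rw [inv_pow, Real.sq_sqrt h'.le]
    have : B v v ≠ 0 := v3.ne
    field_simp
  refine ⟨s • p + t • v, (2⁻¹ : ℝ) • (s • p - t • v), ?_, ?_, ?_⟩
  · simp only [map_add, map_smul, LinearMap.add_apply, LinearMap.smul_apply, smul_eq_mul, v1, v4]
    nlinarith
  · simp only [map_sub, map_smul, LinearMap.sub_apply, LinearMap.smul_apply, smul_eq_mul, v1, v4]
    nlinarith
  · simp only [map_add, map_sub, map_smul, LinearMap.add_apply, LinearMap.sub_apply,
      LinearMap.smul_apply, smul_eq_mul, v1, v4]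
    nlinarith

/-- an anisotropic vector orthogonal to a hyperbolic pair -/
theorem exists_aniso [FiniteDimensional ℝ U] (h : Sig2 B) (hd : 3 ≤ finrank ℝ U)
    (H : Hyp B e f) : ∃ z, B e z = 0 ∧ B f z = 0 ∧ B z z ≠ 0 := by
  have hs := h.1
  by_contra hcon
  push Not at hcon
  obtain ⟨v, hv0, hv⟩ := exists_ker 2 ![B e, B f] (by omega)
  have v1 : B e v = 0 := by simpa using hv 0
  have v2 : B f v = 0 := by simpa using hv 1
  apply hv0
  refine (nondeg h).1 v fun u => ?_
  have h1 := hcon v v1 v2
  have h2 := hcon (zc B e f u) (zc_e hs H u) (zc_f hs H u)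
  have h3 := hcon (v + zc B e f u) (by rw [map_add, v1, zc_e hs H u, add_zero])
    (by rw [map_add, v2, zc_f hs H u, add_zero])
  simp only [map_add, LinearMap.add_apply, h1, h2] at h3
  rw [hs (zc B e f u) v] at h3
  have h4 : B v (zc B e f u) = 0 := by linarith
  conv_lhs => rw [dec B e f u]
  simp only [map_add, map_smul, smul_eq_mul, h4, hs v e, hs v f, v1, v2]
  simp

theorem claimD [FiniteDimensional ℝ U] (h : Sig2 B) (hd : 3 ≤ finrank ℝ U)
    (hd4 : finrank ℝ U ≠ 4) (S : Stab B n) (H : Hyp B e f) {z : U} (hz : z ≠ 0)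
    (h1 : B e z = 0) (h2 : B f z = 0) (h4 : wedge B e z ∈ n) : wedge B f e ∈ n := by
  have hs := h.1
  by_cases h3 : B z z = 0
  swap
  · exact claimB hs S H h1 h2 h3 h4
  have h1' : B z e = 0 := by rw [hs]; exact h1
  have h2' : B z f = 0 := by rw [hs]; exact h2
  by_cases h5 : finrank ℝ U = 3
  · exfalso
    apply hz
    refine (nondeg h).1 z ?_
    have hli : LinearIndependent ℝ ![e, f, z] := by
      rw [Fintype.linearIndependent_iff]
      intro g hg
      simp only [Fin.sum_univ_three, Matrix.cons_val_zero, Matrix.cons_val_one,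
        Matrix.cons_val] at hg
      have g1 : g 1 = 0 := by
        have := congrArg (fun t => B e t) hg
        simpa [H.1, H.2.2, h1] using this
      have g0 : g 0 = 0 := by
        have := congrArg (fun t => B f t) hg
        simpa [H.2.1, hs f e, H.2.2, h2] using this
      have g2 : g 2 = 0 := by
        rw [g0, g1, zero_smul, zero_smul, zero_add, zero_add] at hg
        exact (smul_eq_zero.1 hg).resolve_right hz
      intro i
      fin_cases i
      · exact g0
      · exact g1
      · exact g2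
    have hsp := hli.span_eq_top_of_card_eq_finrank' (by rw [h5]; rfl)
    have hle : Submodule.span ℝ (Set.range ![e, f, z]) ≤ LinearMap.ker (B z) := by
      rw [Submodule.span_le]
      rintro _ ⟨i, rfl⟩
      rw [SetLike.mem_coe, LinearMap.mem_ker]
      fin_cases i
      · exact h1'
      · exact h2'
      · exact h3
    intro u
    have : u ∈ Submodule.span ℝ (Set.range ![e, f, z]) := by rw [hsp]; trivial
    exact LinearMap.mem_ker.1 (hle this)
  · obtain ⟨-, p, q, hp, hq, hpq, hneg⟩ := h
    obtain ⟨v, hv0, hv⟩ := exists_ker 4 ![B e, B z, B p, B q] (by omega)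
    have v1 : B e v = 0 := by simpa using hv 0
    have v2 : B z v = 0 := by simpa using hv 1
    have v3 : B p v = 0 := by simpa using hv 2
    have v4 : B q v = 0 := by simpa using hv 3
    have v5 : B v v < 0 := hneg v hv0 (by rw [hs]; exact v3) (by rw [hs]; exact v4)
    have b1 := zc_e hs H v
    have b2 := zc_f hs H v
    have b3 : B z (zc B e f v) = 0 := by
      rw [zc_apply]; simp [v2, h1', h2']
    have hdv := dec B e f v
    rw [v1, zero_smul, add_zero] at hdv
    have b4 : B (zc B e f v) (zc B e f v) = B v v := by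
      conv_rhs => rw [hdv]
      simp [H.1, b1, hs (zc B e f v) e]
    set b := zc B e f v with hb
    obtain ⟨a, ha⟩ : ∃ a, B z a ≠ 0 := by
      by_contra hcon
      push Not at hcon
      exact hz ((nondeg ⟨hs, p, q, hp, hq, hpq, hneg⟩).1 z hcon)
    have a1 := zc_e hs H a
    have a3 : B z (zc B e f a) = B z a := by
      rw [zc_apply]; simp [h1', h2']
    set a' := zc B e f a with ha'
    have h6 := S.2 _ (wedge_skew hs a' b) _ h4
    rw [comm_wedge hs (wedge_skew hs a' b)] at h6
    have c1 : wedge B a' b e = 0 := by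
      rw [wedge_apply, hs a' e, a1, hs b e, b1]; simp
    have c2 : wedge B a' b z = B z a • b := by
      rw [wedge_apply, hs a' z, a3, hs b z, b3]; simp
    have c3 : wedge B 0 z = 0 := by rw [wedge_swap, wz, neg_zero]
    rw [c1, c2, c3, zero_add, wedge_smul_right] at h6
    have h7 := n.smul_mem (B z a)⁻¹ h6
    rw [smul_smul, inv_mul_cancel₀ ha, one_smul] at h7
    exact claimB hs S H b1 b2 (by rw [b4]; exact v5.ne) h7

theorem final [FiniteDimensional ℝ U] (h : Sig2 B) (hd : 3 ≤ finrank ℝ U) {y : End ℝ U}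
    (hy : Skew B y) (hc : ∀ e f, Hyp B e f → zc B e f (y f) = 0) : y = 0 := by
  have hs := h.1
  obtain ⟨e, f, H⟩ := exists_hyp h hd
  obtain ⟨z0, z1, z2, z3⟩ := exists_aniso h hd H
  have key : ∀ e f, Hyp B e f → y f = B e (y f) • f ∧ y e = -(B e (y f) • e) := by
    intro e f H
    have H' : Hyp B f e := ⟨H.2.1, H.1, by rw [hs f e]; exact H.2.2⟩
    have a3 : B f (y e) = - B e (y f) := by
      have := hy e f
      rw [hs (y e) f] at this; linarith
    have a4 : B f (y f) = 0 := by
      have := hy f f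
      rw [hs (y f) f] at this; linarith
    have a5 : B e (y e) = 0 := by
      have := hy e e
      rw [hs (y e) e] at this; linarith
    constructor
    · have h2 := dec B e f (y f)
      rw [a4, hc e f H, zero_smul, zero_add, add_zero] at h2
      exact h2
    · have h2 := dec B f e (y e)
      rw [a5, hc f e H', zero_smul, zero_add, add_zero, a3, neg_smul] at h2
      exact h2
  obtain ⟨k1, k2⟩ := key e f H
  set c := B e (y f) with hcdef
  have hz : ∀ z, B e z = 0 → B f z = 0 → y z = c • z - (c * B z z) • e := by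
    intro z hz1 hz2
    have hz1' : B z e = 0 := by rw [hs]; exact hz1
    have hz2' : B z f = 0 := by rw [hs]; exact hz2
    have H1 : Hyp B e (f + z - (B z z / 2) • e) := by
      refine ⟨H.1, ?_, ?_⟩
      · simp only [map_add, map_sub, map_smul, LinearMap.add_apply, LinearMap.sub_apply,
          LinearMap.smul_apply, smul_eq_mul, H.1, H.2.1, H.2.2, hs f e, hz1, hz2, hz1', hz2']
        ring
      · simp only [map_add, map_sub, map_smul, smul_eq_mul, H.1, H.2.2, hz1]
        ring
    obtain ⟨l1, l2⟩ := key e _ H1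
    have l3 : B e (y (f + z - (B z z / 2) • e)) = c := by
      have h1 := congrArg (fun t => B f t) (k2.symm.trans l2)
      simp only [map_neg, map_smul, smul_eq_mul, hs f e, H.2.2, mul_one] at h1
      linarith
    rw [l3] at l1
    simp only [map_add, map_sub, map_smul, k1, k2] at l1
    have l4 : y z = c • (f + z - (B z z / 2) • e) - c • f + (B z z / 2) • -(c • e) := by
      rw [← l1]; abel
    rw [l4]
    module
  have hc0 : c = 0 := by
    have h1 := hy z0 z0
    rw [hz z0 z1 z2] at h1
    simp only [map_sub, map_smul, LinearMap.sub_apply, LinearMap.smul_apply, smul_eq_mul, z1,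
      hs z0 e] at h1
    have h2 : c * B z0 z0 = 0 := by linarith
    exact (mul_eq_zero.1 h2).resolve_right z3
  rw [hc0] at k1 k2 hz
  ext u
  rw [dec B e f u, map_add, map_add, map_smul, map_smul, k1, k2,
    hz _ (zc_e hs H u) (zc_f hs H u)]
  simp

theorem simp : S_simp := by
  intro U _ _ _ B h hd hd4 n hn1 hn2 hn0
  have S : Stab B n := ⟨hn1, hn2⟩
  have hs := h.1
  rw [Ne, Submodule.eq_bot_iff] at hn0
  push Not at hn0
  obtain ⟨y, hyn, hy0⟩ := hn0
  obtain ⟨e, f, H, hef⟩ : ∃ e f, Hyp B e f ∧ wedge B f e ∈ n := by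
    by_contra hcon
    push Not at hcon
    apply hy0
    refine final h hd (hn1 y hyn) fun e f H => ?_
    by_contra hne
    exact hcon e f H (claimD h hd hd4 S H hne (zc_e hs H _) (zc_f hs H _) (claimA hs S H hyn))
  exact all_skew hs (nondeg h) (all_wedge hs S H hef)

end

end Pool.Agent.W340.K3.Simp
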